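import Pool.Agent.H70.AB.W87.Data

/-!
# Anchors and witnesses W87
-/

namespace Pool.Agent.H70.AB.W87

/-- anchors -/
def anc0 : List (ℕ × ℕ × List ℕ) :=
  List.cons (nat_lit 2000, nat_lit 149, List.cons (nat_lit 15971) <| List.cons (nat_lit 20114) <| List.nil) <|
  List.cons (nat_lit 4001, nat_lit 143, List.cons (nat_lit 28923) <| List.cons (nat_lit 29370) <| List.nil) <|
  List.cons (nat_lit 6002, nat_lit 137, List.cons (nat_lit 8211) <| List.cons (nat_lit 29441) <| List.nil) <|
  List.cons (nat_lit 8003, nat_lit 131, List.cons (nat_lit 28163) <| List.cons (nat_lit 3938) <| List.nil) <|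
  List.cons (nat_lit 10004, nat_lit 125, List.cons (nat_lit 32555) <| List.cons (nat_lit 17450) <| List.nil) <|
  List.cons (nat_lit 12005, nat_lit 119, List.cons (nat_lit 29715) <| List.cons (nat_lit 497) <| List.nil) <|
  List.cons (nat_lit 14006, nat_lit 113, List.cons (nat_lit 36931) <| List.cons (nat_lit 27888) <| List.nil) <|
  List.cons (nat_lit 16007, nat_lit 107, List.cons (nat_lit 15507) <| List.cons (nat_lit 37698) <| List.nil) <|
  List.cons (nat_lit 18008, nat_lit 101, List.cons (nat_lit 43347) <| List.cons (nat_lit 13425) <| List.nil) <|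
  List.cons (nat_lit 20009, nat_lit 96, List.cons (nat_lit 8011) <| List.cons (nat_lit 13553) <| List.nil) <|
  List.cons (nat_lit 22010, nat_lit 90, List.cons (nat_lit 43371) <| List.cons (nat_lit 38410) <| List.nil) <|
  List.cons (nat_lit 24011, nat_lit 84, List.cons (nat_lit 2395) <| List.cons (nat_lit 32273) <| List.nil) <|
  List.cons (nat_lit 26012, nat_lit 78, List.cons (nat_lit 11355) <| List.cons (nat_lit 28114) <| List.nil) <|
  List.cons (nat_lit 28013, nat_lit 72, List.cons (nat_lit 18931) <| List.cons (nat_lit 7672) <| List.nil) <|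
  List.cons (nat_lit 30014, nat_lit 66, List.cons (nat_lit 7947) <| List.cons (nat_lit 29081) <| List.nil) <|
  List.cons (nat_lit 32015, nat_lit 60, List.cons (nat_lit 36523) <| List.cons (nat_lit 784) <| List.nil) <|
  List.cons (nat_lit 34016, nat_lit 54, List.cons (nat_lit 29363) <| List.cons (nat_lit 17498) <| List.nil) <|
  List.cons (nat_lit 36017, nat_lit 48, List.cons (nat_lit 33779) <| List.cons (nat_lit 9394) <| List.nil) <|
  List.cons (nat_lit 38018, nat_lit 43, List.cons (nat_lit 23003) <| List.cons (nat_lit 3803) <| List.nil) <|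
  List.cons (nat_lit 40019, nat_lit 37, List.cons (nat_lit 26019) <| List.cons (nat_lit 37824) <| List.nil) <|
  List.cons (nat_lit 42020, nat_lit 31, List.cons (nat_lit 28267) <| List.cons (nat_lit 17378) <| List.nil) <|
  List.cons (nat_lit 44021, nat_lit 25, List.cons (nat_lit 29379) <| List.cons (nat_lit 15930) <| List.nil) <|
  List.cons (nat_lit 46022, nat_lit 19, List.cons (nat_lit 12555) <| List.cons (nat_lit 41538) <| List.nil) <|
  List.cons (nat_lit 48023, nat_lit 13, List.cons (nat_lit 38411) <| List.cons (nat_lit 3713) <| List.nil) <|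
  List.cons (nat_lit 50024, nat_lit 7, List.cons (nat_lit 21971) <| List.cons (nat_lit 7905) <| List.nil) <|
  List.cons (nat_lit 52025, nat_lit 1, List.cons (nat_lit 29275) <| List.cons (nat_lit 42074) <| List.nil) <|
  List.cons (nat_lit 52670, nat_lit 0, List.cons (nat_lit 20347) <| List.cons (nat_lit 29072) <| List.nil) <|
  []

/-- witnesses -/
def wit : List ℕ :=
  List.cons (nat_lit 1) <| List.cons (nat_lit 2) <| List.cons (nat_lit 3) <| List.cons (nat_lit 4) <| List.cons (nat_lit 5) <| List.cons (nat_lit 6) <| List.cons (nat_lit 7) <| List.cons (nat_lit 8) <| List.cons (nat_lit 10) <| List.cons (nat_lit 12) <| List.cons (nat_lit 14) <| List.cons (nat_lit 28) <| List.cons (nat_lit 53) <| List.cons (nat_lit 56) <| List.cons (nat_lit 164) <| List.cons (nat_lit 311) <| List.cons (nat_lit 381) <| List.cons (nat_lit 403) <| List.cons (nat_lit 437) <| List.cons (nat_lit 467) <| List.cons (nat_lit 692) <| List.cons (nat_lit 742) <| List.cons (nat_lit 823) <| List.cons (nat_lit 888) <| List.cons (nat_lit 1055) <| List.cons (nat_lit 1066) <| List.cons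 (nat_lit 1139) <| List.cons (nat_lit 1141) <| List.cons (nat_lit 1159) <| List.cons (nat_lit 1434) <| List.cons (nat_lit 1516) <| List.cons (nat_lit 1853) <| List.cons (nat_lit 2746) <| List.nil

theorem num1 : A.numOK = true := by decide +kernel

theorem num2 : A.numOK2 (nat_lit 7500) (nat_lit 7500) (nat_lit 154) (nat_lit 74299) (nat_lit 2746) = true := by decide +kernel

theorem ancOK : A.ancs (nat_lit 7500) (nat_lit 7500) (nat_lit 52671) anc0 (nat_lit 0) = true := by decide +kernel

theorem devOK : A.devchk (nat_lit 7500) (nat_lit 154) = true := by decide +kernel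

theorem leaOK : A.lea (nat_lit 74639) wit = true := by decide +kernel

theorem bndOK : bndW (nat_lit 2746) wit = true := by decide +kernel

theorem vOK : A.v1 = true := by decide +kernel

end Pool.Agent.H70.AB.W87
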