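import Pool.Agent.H70.AB.W87.Data

/-!
# Direct checks W87, part 0
-/

namespace Pool.Agent.H70.AB.W87

theorem dir0 : A.chkR (nat_lit 1) (nat_lit 400) = true := by decide +kernel

theorem dir1 : A.chkR (nat_lit 401) (nat_lit 400) = true := by decide +kernel

theorem dir2 : A.chkR (nat_lit 801) (nat_lit 400) = true := by decide +kernel

theorem dir3 : A.chkR (nat_lit 1201) (nat_lit 400) = true := by decide +kernel

theorem dir4 : A.chkR (nat_lit 1601) (nat_lit 400) = true := by decide +kernel

theorem dir5 : A.chkR (nat_lit 2001) (nat_lit 400) = true := by decide +kernel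

theorem dir6 : A.chkR (nat_lit 2401) (nat_lit 400) = true := by decide +kernel

theorem dir7 : A.chkR (nat_lit 2801) (nat_lit 400) = true := by decide +kernel


end Pool.Agent.H70.AB.W87
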