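import Pool.Agent.H70.AB.W87.Data

/-!
# Direct checks W87, part 1
-/

namespace Pool.Agent.H70.AB.W87

theorem dir8 : A.chkR (nat_lit 3201) (nat_lit 400) = true := by decide +kernel

theorem dir9 : A.chkR (nat_lit 3601) (nat_lit 400) = true := by decide +kernel

theorem dir10 : A.chkR (nat_lit 4001) (nat_lit 400) = true := by decide +kernel

theorem dir11 : A.chkR (nat_lit 4401) (nat_lit 400) = true := by decide +kernel

theorem dir12 : A.chkR (nat_lit 4801) (nat_lit 400) = true := by decide +kernel

theorem dir13 : A.chkR (nat_lit 5201) (nat_lit 400) = true := by decide +kernel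

theorem dir14 : A.chkR (nat_lit 5601) (nat_lit 400) = true := by decide +kernel

theorem dir15 : A.chkR (nat_lit 6001) (nat_lit 400) = true := by decide +kernel


end Pool.Agent.H70.AB.W87
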