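import Pool.Agent.H70.AB.W87.Data

/-!
# Direct checks W87, part 2
-/

namespace Pool.Agent.H70.AB.W87

theorem dir16 : A.chkR (nat_lit 6401) (nat_lit 400) = true := by decide +kernel

theorem dir17 : A.chkR (nat_lit 6801) (nat_lit 400) = true := by decide +kernel

theorem dir18 : A.chkR (nat_lit 7201) (nat_lit 299) = true := by decide +kernel


end Pool.Agent.H70.AB.W87
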