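import Pool.Agent.H70.AB.Sound
import Pool.Agent.H70.AB.Reg
import Pool.Agent.H70.AB.W87.Cert
import Pool.Agent.H70.AB.W87.Dir0
import Pool.Agent.H70.AB.W87.Dir1
import Pool.Agent.H70.AB.W87.Dir2

/-!
# Conclusion W87
-/

namespace Pool.Agent.H70.AB.W87

theorem dirAll : ∀ m, 0 < m → m < 7500 → A.chk m = true := by
  intro m h1 h2
  by_cases h : m < 401
  · exact chkR_sound A 1 400 dir0 m (by omega) (by omega)
  push Not at h
  by_cases h : m < 801
  · exact chkR_sound A 401 400 dir1 m (by omega) (by omega)
  push Not at h
  by_cases h : m < 1201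
  · exact chkR_sound A 801 400 dir2 m (by omega) (by omega)
  push Not at h
  by_cases h : m < 1601
  · exact chkR_sound A 1201 400 dir3 m (by omega) (by omega)
  push Not at h
  by_cases h : m < 2001
  · exact chkR_sound A 1601 400 dir4 m (by omega) (by omega)
  push Not at h
  by_cases h : m < 2401
  · exact chkR_sound A 2001 400 dir5 m (by omega) (by omega)
  push Not at h
  by_cases h : m < 2801
  · exact chkR_sound A 2401 400 dir6 m (by omega) (by omega)
  push Not at h
  by_cases h : m < 3201
  · exact chkR_sound A 2801 400 dir7 m (by omega) (by omega)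
  push Not at h
  by_cases h : m < 3601
  · exact chkR_sound A 3201 400 dir8 m (by omega) (by omega)
  push Not at h
  by_cases h : m < 4001
  · exact chkR_sound A 3601 400 dir9 m (by omega) (by omega)
  push Not at h
  by_cases h : m < 4401
  · exact chkR_sound A 4001 400 dir10 m (by omega) (by omega)
  push Not at h
  by_cases h : m < 4801
  · exact chkR_sound A 4401 400 dir11 m (by omega) (by omega)
  push Not at h
  by_cases h : m < 5201
  · exact chkR_sound A 4801 400 dir12 m (by omega) (by omega)
  push Not at h
  by_cases h : m < 5601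
  · exact chkR_sound A 5201 400 dir13 m (by omega) (by omega)
  push Not at h
  by_cases h : m < 6001
  · exact chkR_sound A 5601 400 dir14 m (by omega) (by omega)
  push Not at h
  by_cases h : m < 6401
  · exact chkR_sound A 6001 400 dir15 m (by omega) (by omega)
  push Not at h
  by_cases h : m < 6801
  · exact chkR_sound A 6401 400 dir16 m (by omega) (by omega)
  push Not at h
  by_cases h : m < 7201
  · exact chkR_sound A 6801 400 dir17 m (by omega) (by omega)
  push Not at h
  exact chkR_sound A 7201 299 dir18 m (by omega) (by omega)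

theorem final : Str A.word 340 340 3 52331 52285 ∧ Avoids 7 1 A.word ∧
    ∀ u, Avoids 7 1 u → A.word = u ∨ ∃ n, (∀ j, j < n → A.word j = u j) ∧ A.word n < u n :=
  Dat.final (A := A) num1 num2 dirAll ancOK devOK (fun h => h.v1_sound vOK) leaOK bndOK

end Pool.Agent.H70.AB.W87
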